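import Mathlib
import Pool.Agent.MP_e8bb44_al.Defs
import Pool.Agent.MP_e8bb44_al.Mg.Main

set_option autoImplicit false

open Pool.Agent.MP_e8bb44_al

namespace Pool.Agent.Results.MP_e8bb44_al.Q1

/-- Every linear form on J is equivalent to the form of a rook placement. -/
theorem result : ∀ (F : Type) [Field F] (n : ℕ) (c : Composition n)
    (l : Module.Dual F (nilRad F c)),
    ∃ D : Finset (Fin n × Fin n), IsRookPlacement c D ∧ Equivalent c l (rookForm F c D) :=
  fun _ _ _ c l => q1 c l

end Pool.Agent.Results.MP_e8bb44_al.Q1
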