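import Mathlib
import Pool.Agent.MP_e8bb44_al.Defs
import Pool.Agent.MP_e8bb44_al.Mg.Main

set_option autoImplicit false

open Pool.Agent.MP_e8bb44_al

namespace Pool.Agent.Results.MP_e8bb44_al.Q2

/-- The forms of two rook placements are equivalent exactly when the placements are conjugate
under the Weyl group of the Levi factor. -/
theorem result : ∀ (F : Type) [Field F] (n : ℕ) (c : Composition n)
    (D D' : Finset (Fin n × Fin n)), IsRookPlacement c D → IsRookPlacement c D' →
    (Equivalent c (rookForm F c D) (rookForm F c D') ↔
      ∃ w : Equiv.Perm (Fin n), (∀ i, c.index (w i) = c.index i) ∧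
        D' = D.image (fun p => (w p.1, w p.2))) :=
  fun _ _ _ c D D' hD hD' => q2 c D D' hD hD'

end Pool.Agent.Results.MP_e8bb44_al.Q2
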